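import Pool.Agent.U434.PA.Good

/-!
# From the Frobenius elements to the Zariski closure
-/

set_option autoImplicit false

namespace Pool.Agent.U434.PA

open Module Module.End Polynomial
open Pool.Agent.N184.HK Pool.Agent.Y143
open scoped Classical

section conj

variable {K V : Type} [Field K] [AddCommGroup V] [Module K V]

/-- The operator `b ↦ A b - b A`. -/
noncomputable def dop (A : Module.End K V) : Module.End K (Module.End K V) :=
  LinearMap.mulLeft K A - LinearMap.mulRight K A

lemma adE_mulRight (φ : V ≃ₗ[K] V) :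
    adE φ * LinearMap.mulRight K (en φ) = LinearMap.mulLeft K (en φ) := by
  ext b x
  change adE φ (b * en φ) x = (en φ * b) x
  simp [adE, LinearEquiv.conj_apply]

lemma adE_mulRight_comm (φ : V ≃ₗ[K] V) :
    Commute (adE φ) (LinearMap.mulRight K (en φ)) := by
  change adE φ * LinearMap.mulRight K (en φ) = LinearMap.mulRight K (en φ) * adE φ
  ext b x
  change adE φ (b * en φ) x = (adE φ b * en φ) x
  simp [adE, LinearEquiv.conj_apply]

lemma mulRight_inj (φ : V ≃ₗ[K] V) (k : ℕ) :
    Function.Injective ((LinearMap.mulRight K (en φ)) ^ k) := by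
  have h1 : Function.Injective (LinearMap.mulRight K (en φ)) := by
    intro a b hab
    ext x
    have h2 := congrArg (fun f : Module.End K V => f (φ.symm x)) hab
    change a (φ (φ.symm x)) = b (φ (φ.symm x)) at h2
    rwa [LinearEquiv.apply_symm_apply] at h2
  rw [Module.End.coe_pow]
  exact h1.iterate k

lemma dop_pow (φ : V ≃ₗ[K] V) (M r : ℕ) : dop (en φ ^ M) ^ r =
    ((LinearMap.mulRight K (en φ)) ^ (M * r)) * (((adE φ) ^ M - 1) ^ r) := by
  have hc := adE_mulRight_comm φ
  have h1 : dop (en φ ^ M) = (LinearMap.mulRight K (en φ)) ^ M * ((adE φ) ^ M - 1) := by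
    rw [mul_sub, mul_one, dop, ← LinearMap.pow_mulLeft, ← LinearMap.pow_mulRight,
      ← adE_mulRight, hc.mul_pow, ((hc.pow_pow M M).eq)]
  have h2 : Commute ((LinearMap.mulRight K (en φ)) ^ M) ((adE φ) ^ M - 1) :=
    (hc.symm.pow_pow M M).sub_right (Commute.one_right _)
  rw [h1, h2.mul_pow, ← pow_mul]

lemma dop_iff (φ : V ≃ₗ[K] V) (M r : ℕ) (a : Module.End K V) :
    (dop (en φ ^ M) ^ r) a = 0 ↔ (((adE φ) ^ M - 1) ^ r) a = 0 := by
  rw [dop_pow, Module.End.mul_apply]
  constructor
  · intro h
    exact mulRight_inj φ (M * r) (by rw [h, map_zero])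
  · intro h
    rw [h, map_zero]

end conj

section

variable {Ω : Type} [Field Ω] {d : ℕ} {c : ℚ} {X : Cohomology Ω d c}

lemma PE_dop (i M r : ℕ) (a : Module.End Ω (X.H i)) :
    PE (fun s : Fam X => (dop (s i ^ M) ^ r) a) := by
  induction r with
  | zero =>
    have h1 : (fun s : Fam X => (dop (s i ^ M) ^ 0) a) = fun _ => a := by
      funext s
      rw [pow_zero, Module.End.one_apply]
    rw [h1]
    exact PE_const a
  | succ r ih =>
    have h1 : (fun s : Fam X => (dop (s i ^ M) ^ (r + 1)) a) = fun s : Fam X =>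
        s i ^ M * (dop (s i ^ M) ^ r) a - (dop (s i ^ M) ^ r) a * s i ^ M := by
      funext s
      rw [pow_succ', Module.End.mul_apply]
      rfl
    rw [h1]
    exact (((PE_coord i).pow M).mul ih).sub (ih.mul ((PE_coord i).pow M))

end

section

variable {Ω : Type} [Field Ω] [CharZero Ω] [IsAlgClosed Ω] [TopologicalSpace Ω]
  [IsTopologicalRing Ω] [T2Space Ω] (X : HKFamily Ω)

/-- The elements in the Zariski closure of the image of `G`. -/
def InClosure (F : X.H.Auto) : Prop :=
  fam F ∈ zariskiClosure X.H (Set.range fun σ => fam (X.F σ))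

variable {X}

omit [CharZero Ω] [IsAlgClosed Ω] in
/-- A polynomial function which vanishes at the Frobenius elements vanishes on the Zariski
closure. -/
lemma clo_zero {f : Fam X.H → Ω} (hf : f ∈ polyFun X.H)
    (h : ∀ s, ∀ σ ∈ X.Frob s, f (fam (X.F σ)) = 0) {F : X.H.Auto} (hF : InClosure X F) :
    f (fam F) = 0 := by
  refine hF f hf ?_
  rintro _ ⟨σ, rfl⟩
  have h1 : Continuous fun σ => f (fam (X.F σ)) := cont_poly (fun i => X.cont i) hf
  have h2 : (fun σ => f (fam (X.F σ))) = fun _ => 0 := by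
    refine h1.ext_on X.dense continuous_const ?_
    intro σ hσ
    obtain ⟨s, hs⟩ := Set.mem_iUnion.1 hσ
    exact h s σ hs
  exact congrFun h2 σ

omit [CharZero Ω] [IsAlgClosed Ω] in
lemma clo_zero' {V : Type} [AddCommGroup V] [Module Ω V] {g : Fam X.H → Module.End Ω V}
    (hg : PE g) (h : ∀ s, ∀ σ ∈ X.Frob s, g (fam (X.F σ)) = 0) {F : X.H.Auto}
    (hF : InClosure X F) : g (fam F) = 0 :=
  (Module.forall_dual_apply_eq_zero_iff Ω _).1 fun L =>
    clo_zero (hg L) (fun s σ hσ => by rw [h s σ hσ, map_zero]) hF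

variable (X) in
/-- The exponent of the roots of unity. -/
noncomputable def expo (i : ℕ) : ℕ := (2 * (finrank Ω (X.H.H i)) ^ 2).factorial

variable {F : X.H.Auto} (hF : InClosure X F)

include hF in
/-- The elements of the closure act quasi-unipotently on the commutant of `so(H²)`. -/
lemma all_quasi {i : ℕ} (hi : i ≤ X.d) {a : Module.End Ω (X.H.H i)} (ha : a ∈ cen X.H i) :
    (((adE (F.φ i)) ^ (expo X i) - 1) ^ (finrank Ω (cen X.H i))) a = 0 := by
  rw [← dop_iff]
  refine clo_zero' (PE_dop i (expo X i) (finrank Ω (cen X.H i)) a) (fun v σ hσ => ?_) hF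
  change (dop (en ((X.F σ).φ i) ^ expo X i) ^ (finrank Ω (cen X.H i))) a = 0
  rw [dop_iff]
  have hst : ∀ x ∈ cen X.H i, adE ((X.F σ).φ i) x ∈ cen X.H i := fun x hx => cen_ad _ hx
  have h1 := t_qu Ω (cen X.H i) ((adE ((X.F σ).φ i)).restrict hst) (expo X i) (by
    intro t ht
    obtain ⟨x, hx⟩ := ht.exists_hasEigenvector
    have hx1 := hx.apply_eq_smul
    have hx2 : adE ((X.F σ).φ i) (x : Module.End Ω (X.H.H i)) = t • (x : Module.End Ω _) :=
      congrArg Subtype.val hx1
    have hx0 : (x : Module.End Ω (X.H.H i)) ≠ 0 := fun h => hx.2 (Subtype.ext h)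
    refine good_eig X hσ hi x.2 hx0 ?_
    rw [Module.End.mem_maxGenEigenspace]
    refine ⟨1, ?_⟩
    rw [pow_one, LinearMap.sub_apply, hx2, LinearMap.smul_apply]
    exact sub_self _)
  have h2 := restrict_quasi (p := cen X.H i) (f := (adE ((X.F σ).φ i)).restrict hst)
    (g := adE ((X.F σ).φ i)) (fun x => rfl) (expo X i) (finrank Ω (cen X.H i)) ⟨a, ha⟩
  rw [h1] at h2
  rw [← h2]
  rfl

include hF in
lemma cen_root {i : ℕ} (hi : i ≤ X.d) {a : Module.End Ω (X.H.H i)} (ha : a ∈ cen X.H i)
    (ha0 : a ≠ 0) {t : Ω} (hat : a ∈ (adE (F.φ i)).maxGenEigenspace t) :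
    t ^ expo X i = 1 := by
  refine root_of_quasi (m := finrank Ω (cen X.H i)) ha0 hat ?_
  rintro b ⟨k, rfl⟩
  refine all_quasi hF hi ?_
  induction k with
  | zero => exact ha
  | succ k ih =>
    rw [_root_.pow_succ', Module.End.mul_apply, LinearMap.sub_apply]
    exact Submodule.sub_mem _ (cen_ad _ ih) (Submodule.smul_mem _ _ ih)

omit [CharZero Ω] [IsAlgClosed Ω] [TopologicalSpace Ω] [IsTopologicalRing Ω] [T2Space Ω] in
lemma adE_eq_iff {V : Type} [AddCommGroup V] [Module Ω V] (φ : V ≃ₗ[Ω] V) (z : Module.End Ω V) :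
    adE φ z = z ↔ Commute (en φ) z := by
  constructor
  · intro h
    change en φ * z = z * en φ
    ext y
    have := congrArg (fun f : Module.End Ω V => f (φ y)) h
    simp only [adE_apply] at this
    exact this
  · intro h
    ext y
    have h1 := congrArg (fun f : Module.End Ω V => f (φ.symm y)) h.eq
    have h2 : adE φ z y = φ (z (φ.symm y)) := by simp [adE, LinearEquiv.conj_apply]
    rw [h2]
    change φ (z (φ.symm y)) = z (φ (φ.symm y)) at h1
    rw [h1, LinearEquiv.apply_symm_apply]

omit [IsAlgClosed Ω] [TopologicalSpace Ω] [IsTopologicalRing Ω] [T2Space Ω] in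
/-- If `z` is an idempotent which commutes with `φ z φ⁻¹ ≠ z`, the compression of `φ` to the image of
`z` is not invertible. -/
lemma det_compress {V : Type} [AddCommGroup V] [Module Ω V] [FiniteDimensional Ω V]
    (φ : V ≃ₗ[Ω] V) {z : Module.End Ω V} (hz : z * z = z) (hc : Commute z (adE φ z))
    (hne : ¬ Commute (en φ) z) : LinearMap.det (z * en φ * z + (1 - z)) = 0 := by
  by_contra hdet
  refine hne ((adE_eq_iff φ z).1 ?_)
  have hu : IsUnit (z * en φ * z + (1 - z)) := by
    rw [LinearMap.isUnit_iff_isUnit_det]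
    exact isUnit_iff_ne_zero.2 hdet
  obtain ⟨u, hu⟩ := hu
  set e := adE φ z with he
  have hee : e * e = e := P_OPEN.adE_idem φ hz
  have hφ : en φ * z = e * en φ := by
    ext x
    exact (adE_apply φ z x).symm
  -- `z = z e φ (z u⁻¹ z)`
  have h1 : z * (z * en φ * z + (1 - z)) = z * e * en φ := by
    have : z * en φ * z = z * e * en φ := by rw [mul_assoc, hφ, mul_assoc]
    rw [mul_add, mul_sub, mul_one, hz, sub_self, add_zero, this, ← mul_assoc, ← mul_assoc, hz]
  have h2 : z = z * e * (en φ * ((u⁻¹ : (Module.End Ω V)ˣ) : Module.End Ω V)) := by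
    rw [← mul_assoc, ← h1, ← hu, mul_assoc, Units.mul_inv, mul_one]
  have h3 : e * z = z := by
    have h4 : e * z = e * (z * e * (en φ * ((u⁻¹ : (Module.End Ω V)ˣ) : Module.End Ω V))) := by
      rw [← h2]
    have h6 : e * (z * e) = z * e := by rw [← mul_assoc, ← hc.eq, mul_assoc, hee]
    rw [h4, ← mul_assoc e, h6, ← h2]
  have h5 : e = e * z := by
    refine P_OPEN.idem_sub hee hz hc.symm ?_
    rw [h3, he, P_OPEN.adE_trace]
  rw [h5, h3]

include hF in
/-- The determinants of the elements of the closure on the image of a central idempotent `z` of the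
commutant of `so(H²)`. -/
lemma clo_det {i : ℕ} (hi : i ≤ X.d) {z : Module.End Ω (X.H.H i)} (hz : z ∈ cen X.H i)
    (hzz : z * z = z) (hzc : ∀ a ∈ cen X.H i, Commute a z)
    (hzφ : Commute (en (F.φ i)) z) {n : ℕ} (hn : LinearMap.trace Ω _ z = n) :
    LinearMap.det (en (F.φ i) * z + (1 - z)) ^ (4 * expo2 X i n) =
      F.μ ^ (i * n * expo2 X i n) := by
  obtain ⟨m, hm, hmμ⟩ := exists_mult (X := X.H)
  have hdet : ∀ {φ : X.H.H i ≃ₗ[Ω] X.H.H i}, Commute (en φ) z →
      z * en φ * z + (1 - z) = en φ * z + (1 - z) := by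
    intro φ h
    rw [← h.eq, mul_assoc, hzz]
  set D : Fam X.H → Ω := fun s => LinearMap.det (z * s i * z + (1 - z)) with hD
  have hDm : D ∈ polyFun X.H :=
    PE.det (((PE_const z).mul (PE_coord i)).mul (PE_const z) |>.add (PE_const (1 - z)))
  have hf : D * (D ^ (4 * expo2 X i n) - m ^ (i * n * expo2 X i n)) ∈ polyFun X.H :=
    mul_mem hDm (sub_mem (pow_mem hDm _) (pow_mem hm _))
  have h0 := clo_zero hf (fun v σ hσ => ?_) hF
  · have h1 : D (fam F) = LinearMap.det (en (F.φ i) * z + (1 - z)) := by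
      change LinearMap.det (z * en (F.φ i) * z + (1 - z)) = _
      rw [hdet hzφ]
    have h2 : D (fam F) ≠ 0 := by
      have h3 : (en (F.φ i) * z + (1 - z)) * (en (F.φ i).symm * z + (1 - z)) = 1 := by
        have h4 : Commute (en (F.φ i).symm) z := by
          have h5 : en (F.φ i) * en (F.φ i).symm = 1 := by
            ext x; simp
          have h6 : en (F.φ i).symm * en (F.φ i) = 1 := by
            ext x; simp
          change en (F.φ i).symm * z = z * en (F.φ i).symm
          calc en (F.φ i).symm * z = en (F.φ i).symm * z * (en (F.φ i) * en (F.φ i).symm) := by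
                rw [h5, mul_one]
            _ = en (F.φ i).symm * (z * en (F.φ i)) * en (F.φ i).symm := by
                simp only [mul_assoc]
            _ = en (F.φ i).symm * (en (F.φ i) * z) * en (F.φ i).symm := by rw [hzφ.eq]
            _ = (en (F.φ i).symm * en (F.φ i)) * z * en (F.φ i).symm := by
                simp only [mul_assoc]
            _ = z * en (F.φ i).symm := by rw [h6, one_mul]
        have h5 : en (F.φ i) * en (F.φ i).symm = 1 := by
          ext x; simp
        have h7 : en (F.φ i) * z * (en (F.φ i).symm * z) = z := by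
          rw [mul_assoc, ← mul_assoc z, ← h4.eq, mul_assoc (en (F.φ i).symm), hzz, ← mul_assoc,
            h5, one_mul]
        have h8 : en (F.φ i) * z * (1 - z) = 0 := by
          rw [mul_sub, mul_one, mul_assoc, hzz, sub_self]
        have h9 : (1 - z) * (en (F.φ i).symm * z) = 0 := by
          rw [sub_mul, one_mul, ← mul_assoc, ← h4.eq, mul_assoc, hzz, sub_self]
        have h10 : (1 - z) * (1 - z) = 1 - z := by
          rw [mul_sub, mul_one, sub_mul, one_mul, hzz, sub_self, sub_zero]
        rw [add_mul, mul_add, mul_add, h7, h8, h9, h10]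
        abel
      intro h4
      have h5 := congrArg LinearMap.det h3
      rw [map_mul, ← h1, h4, zero_mul, map_one] at h5
      exact zero_ne_one h5
    have h3 : D (fam F) * (D (fam F) ^ (4 * expo2 X i n) -
        m (fam F) ^ (i * n * expo2 X i n)) = 0 := h0
    have h4 := sub_eq_zero.1 ((mul_eq_zero.1 h3).resolve_left h2)
    rw [h1, hmμ] at h4
    exact h4
  · change D (fam (X.F σ)) * (D (fam (X.F σ)) ^ (4 * expo2 X i n) -
      m (fam (X.F σ)) ^ (i * n * expo2 X i n)) = 0
    by_cases hcomm : Commute (en ((X.F σ).φ i)) z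
    · have h1 : D (fam (X.F σ)) = LinearMap.det (en ((X.F σ).φ i) * z + (1 - z)) := by
        change LinearMap.det (z * en ((X.F σ).φ i) * z + (1 - z)) = _
        rw [hdet hcomm]
      rw [h1, hmμ, good_det X hσ hi hz hzz hcomm hn, sub_self, mul_zero]
    · have h1 : D (fam (X.F σ)) = 0 :=
        det_compress ((X.F σ).φ i) hzz (hzc _ (cen_ad _ hz)).symm hcomm
      rw [h1, zero_mul]

end

end Pool.Agent.U434.PA
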