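import Pool.Agent.N184.HK.WDefs

/-!
# The `p`-adic weight-monodromy conjecture for hyperkähler varieties: definitions

`Ω` is an algebraically closed topological field of characteristic zero, for example the completion
of an algebraic closure of the field `P₀` of the problem.
-/

set_option autoImplicit false

namespace Pool.Agent.U434.PA

open Module Polynomial
open Pool.Agent.N184.HK Pool.Agent.Y143

section Zariski

variable {Ω : Type} [Field Ω] {d : ℕ} {c : ℚ} (X : Cohomology Ω d c)

/-- The families of endomorphisms of the cohomology groups `H^i(X)`. -/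
abbrev Fam : Type := ∀ i, Module.End Ω (X.H i)

/-- The algebra of the polynomial functions on the space of the families of endomorphisms, generated
by the functions `g ↦ L (g i)` for the linear forms `L` on the endomorphisms of `H^i(X)`. -/
def polyFun : Subalgebra Ω (Fam X → Ω) :=
  Algebra.adjoin Ω
    {f | ∃ (i : ℕ) (L : Module.Dual Ω (Module.End Ω (X.H i))), f = fun g => L (g i)}

/-- The Zariski closure of a set of families of endomorphisms. -/
def zariskiClosure (S : Set (Fam X)) : Set (Fam X) :=
  {g | ∀ f ∈ polyFun X, (∀ s ∈ S, f s = 0) → f g = 0}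

variable {X}

/-- The family of endomorphisms given by an automorphism of the cohomology. -/
def fam (F : X.Auto) : Fam X := fun i => en (F.φ i)

end Zariski

section Pure

variable {Ω V : Type} [Field Ω] [CharZero Ω] [AddCommGroup V] [Module Ω V]

/-- `α` is an algebraic number all of whose complex conjugates have absolute value `p ^ r`. -/
def HasAbs (p : ℕ) (r : ℝ) (α : Ω) : Prop :=
  IsAlgebraic ℚ α ∧ ∀ z : ℂ, aeval z (minpoly ℚ α) = 0 → ‖z‖ = (p : ℝ) ^ r

/-- The statement of the `p`-adic weight-monodromy conjecture for a representation `r` of the Weil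
group `W` (with the homomorphism `v : W → ℤ`) on `V = H^m_pst`, with the operator `N`: there is a
filtration `M` of `V` by stable subspaces which is the monodromy filtration of `N`, and each
eigenvalue `α` of `g` on the graded piece `M_s / M_(s - 1)` is an algebraic number all of whose
complex conjugates have absolute value `p ^ ((m + s) v(g) / 2)`, for all `g` in `W`. -/
def WMPure (p : ℕ) (m : ℤ) {W : Type} (v : W → ℤ) (r : W → Module.End Ω V) (N : Module.End Ω V) :
    Prop :=
  ∃ M : ℤ → Submodule Ω V, IsMonodromyFiltration N M ∧ (∀ g s x, x ∈ M s → r g x ∈ M s) ∧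
    ∀ (g : W) (s : ℤ) (α : Ω) (x : V), x ∈ M s → x ∉ M (s - 1) → r g x - α • x ∈ M (s - 1) →
      HasAbs p (((m : ℝ) + s) * v g / 2) α

end Pure

/-- The `p`-adic cohomology `H` of a variety `X` with coefficients `Ω`, with the continuous action `F`
of a topological group `G`. -/
structure Family (Ω : Type) [Field Ω] [TopologicalSpace Ω] (d : ℕ) (c : ℚ) where
  H : Cohomology Ω d c
  G : Type
  [group : Group G]
  [topology : TopologicalSpace G]
  F : G → H.Auto
  mul : ∀ σ τ i, (F (σ * τ)).φ i = ((F τ).φ i).trans ((F σ).φ i)
  cont : ∀ i, Cts fun σ => en ((F σ).φ i)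

attribute [instance] Family.group Family.topology

/-- The element `σ` of `G` multiplies the form `q` by `n ^ 2` and the `P i` are its characteristic
polynomials on the `H^i`. -/
def Family.HasPoly {Ω : Type} [Field Ω] [TopologicalSpace Ω] {d : ℕ} {c : ℚ} (E : Family Ω d c)
    (σ : E.G) (n : ℕ) (P : ℕ → ℤ[X]) : Prop :=
  (E.F σ).μ = (n : Ω) ^ 2 ∧
    ∀ i ≤ d, (en ((E.F σ).φ i)).charpoly = (P i).map (Int.castRingHom Ω)

/-- A projective hyperkähler variety `X` of dimension `d / 2` over a field `k` of characteristic zero
(for example a `p`-adic field). It is the base change of a smooth projective family `𝒳 → S` for a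
morphism `Spec k → S`, where the scheme `S` is integral and smooth over `ℤ[1/M]` for some `M`
divisible by `p`. The data are the `p`-adic cohomology of `X` (over an algebraic closure of `k`)
with coefficients `Ω`, with the continuous action of the fundamental group `G` of `S`; the set `P` of
the closed points `s` of `S` whose residue field is a prime field, with `norm s` elements; the set
`Frob s` of the geometric Frobenius elements of `s` in `G`. These are dense (Chebotarev, Serre).
They multiply the form `q` by `(norm s) ^ 2`, their characteristic polynomials `poly s i` on `H^i`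
have integral coefficients and roots of absolute value `(norm s) ^ (i / 2)` (Deligne), and they
are the characteristic polynomials of the crystalline Frobenius (Katz, Messing). -/
structure HKFamily (Ω : Type) [Field Ω] [TopologicalSpace Ω] where
  d : ℕ
  two_le : 2 ≤ d
  c : ℚ
  E : Family Ω d c
  P : Type
  norm : P → ℕ
  prime : ∀ s, (norm s).Prime
  Frob : P → Set E.G
  dense : Dense (⋃ s, Frob s)
  poly : P → ℕ → ℤ[X]
  frob : ∀ s, ∀ σ ∈ Frob s, E.HasPoly σ (norm s) (poly s)
  weilPoly : ∀ s, IsWeilPoly (norm s) d (poly s)
  crys : ∀ s, CrysPlace d c (norm s)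
  crysPoly : ∀ s, (crys s).HasPoly (poly s)

section

variable {Ω : Type} [Field Ω] [TopologicalSpace Ω]

/-- The cohomology of `X`. -/
abbrev HKFamily.H (X : HKFamily Ω) : Cohomology Ω X.d X.c := X.E.H

/-- The fundamental group of `S`. -/
abbrev HKFamily.G (X : HKFamily Ω) : Type := X.E.G

/-- The action of the fundamental group. -/
abbrev HKFamily.F (X : HKFamily Ω) : X.G → X.H.Auto := X.E.F

lemma HKFamily.cont (X : HKFamily Ω) (i : ℕ) : Cts fun σ => en ((X.F σ).φ i) := X.E.cont i

lemma HKFamily.mult (X : HKFamily Ω) (s : X.P) (σ : X.G) (hσ : σ ∈ X.Frob s) :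
    (X.F σ).μ = (X.norm s : Ω) ^ 2 := (X.frob s σ hσ).1

lemma HKFamily.frobPoly (X : HKFamily Ω) (s : X.P) (σ : X.G) (hσ : σ ∈ X.Frob s) (i : ℕ)
    (hi : i ≤ X.d) : (en ((X.F σ).φ i)).charpoly = (X.poly s i).map (Int.castRingHom Ω) :=
  (X.frob s σ hσ).2 i hi

/-- The Zariski closure of the image of `G` in the families of endomorphisms. -/
def HKFamily.closure (X : HKFamily Ω) : Set (Fam X.H) :=
  zariskiClosure X.H (Set.range fun σ => fam (X.F σ))

/-- The action of a group `W` (the Weil group of `k`, with the nonzero homomorphism `v : W → ℤ`) on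
the cohomology of `X` by elements of the Zariski closure of the image of `G`. The element `g`
multiplies the form `q` by `p ^ (2 v(g))`. -/
structure WeilAction (X : HKFamily Ω) (p : ℕ) where
  W : Type
  [group : Group W]
  v : W → ℤ
  v_mul : ∀ g h, v (g * h) = v g + v h
  v_pos : ∃ g, 0 < v g
  r : W → X.H.Auto
  r_mul : ∀ g h i, (r (g * h)).φ i = ((r h).φ i).trans ((r g).φ i)
  closure : ∀ g, fam (r g) ∈ X.closure
  mult : ∀ g, (r g).μ = (p : Ω) ^ (2 * v g)

attribute [instance] WeilAction.group

end

section

variable {Ω V : Type} [Field Ω] [CharZero Ω] [AddCommGroup V] [Module Ω V]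

/-- The relation `N g = p ^ n g N`. -/
def Rel (p : ℕ) (n : ℤ) (g N : Module.End Ω V) : Prop := ∀ x, N (g x) = (p : Ω) ^ n • g (N x)

/-- The conjugates of an eigenvalue of `g` have absolute value `p ^ (w n / 2)` for an integer
`w`. -/
def IntegralWeights (p : ℕ) (n : ℤ) (g : Module.End Ω V) : Prop :=
  ∀ e, g.HasEigenvalue e → ∃ w : ℤ, HasAbs p ((w : ℝ) * n / 2) e

end

/-- The representations `H^i_pst` of the Weil group `W` of the `p`-adic field `k` on Fontaine's
spaces `D_pst(H^i)`, with the operator `N`. Here `D_pst(H^i) ⊗ Ω` is identified with `H^i ⊗ Ω` by an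
isomorphism of fibre functors on the Tannakian category of potentially semistable representations of
the absolute Galois group of `k` generated by the `H^i`. So the elements of `W` act by elements of the
Zariski closure of the image of this group, which is contained in the closure of the image of `G`.
The element `g` of `W` acts on `D_pst(ℚ_p(-1))` by `p ^ v(g)`. The operator `N` is natural and a
derivation for tensor products, so it is skew on `H²` and compatible with the action of `so(H²)`;
and `N g = p ^ v(g) g N`. The conjugates of an eigenvalue of `g` on `D_pst(H^i)` have absolute value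
`p ^ (w v(g) / 2)` for an integer `w` (de Jong, Mokrane, Tsuji), and the conjecture is known for
`H²`. -/
structure Pst {Ω : Type} [Field Ω] [CharZero Ω] [TopologicalSpace Ω] (X : HKFamily Ω) (p : ℕ) where
  A : WeilAction X p
  N : ∀ i, Module.End Ω (X.H.H i)
  skew : Skew X.H.q (N 2)
  compat : ∀ i ≤ X.d, (X.H.ρ i).Compat X.H.q (N 2) (N i)
  rel : ∀ g, ∀ i ≤ X.d, Rel p (A.v g) (en ((A.r g).φ i)) (N i)
  weights : ∀ g, ∀ i ≤ X.d, IntegralWeights p (A.v g) (en ((A.r g).φ i))
  pure_two : WMPure p 2 A.v (fun g => en ((A.r g).φ 2)) (N 2)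

/-- The `p`-adic weight-monodromy conjecture for `H^i(X)`. -/
def Pst.IsPure {Ω : Type} [Field Ω] [CharZero Ω] [TopologicalSpace Ω] {X : HKFamily Ω} {p : ℕ}
    (D : Pst X p) (i : ℕ) : Prop :=
  WMPure p i D.A.v (fun g => en ((D.A.r g).φ i)) (D.N i)

end Pool.Agent.U434.PA
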