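import Pool.Agent.U434.PA.Defs

/-!
# Polynomial functions on the families of endomorphisms
-/

set_option autoImplicit false

namespace Pool.Agent.U434.PA

open Module Polynomial
open Pool.Agent.N184.HK

section

variable {Ω : Type} [Field Ω] {d : ℕ} {c : ℚ} {X : Cohomology Ω d c}

/-- Polynomial maps to the endomorphisms of `V`. -/
def PE {V : Type} [AddCommGroup V] [Module Ω V] (g : Fam X → Module.End Ω V) : Prop :=
  ∀ L : Module.Dual Ω (Module.End Ω V), (fun s => L (g s)) ∈ polyFun X

lemma const_mem (x : Ω) : (fun _ : Fam X => x) ∈ polyFun X := by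
  have h := (polyFun X).algebraMap_mem x
  exact h

lemma PE_coord (i : ℕ) : PE (fun s : Fam X => s i) := fun L =>
  Algebra.subset_adjoin ⟨i, L, rfl⟩

section ops

variable {V : Type} [AddCommGroup V] [Module Ω V]

lemma PE_const (a : Module.End Ω V) : PE (fun _ : Fam X => a) := fun L => const_mem (L a)

lemma PE.add {g h : Fam X → Module.End Ω V} (hg : PE g) (hh : PE h) :
    PE (fun s => g s + h s) := fun L => by
  have h1 : (fun s => L (g s + h s)) = (fun s => L (g s)) + fun s => L (h s) := by
    funext s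
    exact map_add L _ _
  rw [h1]
  exact add_mem (hg L) (hh L)

lemma PE.sub {g h : Fam X → Module.End Ω V} (hg : PE g) (hh : PE h) :
    PE (fun s => g s - h s) := fun L => by
  have h1 : (fun s => L (g s - h s)) = (fun s => L (g s)) - fun s => L (h s) := by
    funext s
    exact map_sub L _ _
  rw [h1]
  exact sub_mem (hg L) (hh L)

variable [FiniteDimensional Ω V]

lemma dual_mul (L : Module.Dual Ω (Module.End Ω V)) (A B : Module.End Ω V) :
    L (A * B) = ∑ j, ∑ k, (finBasis Ω (Module.End Ω V)).repr A j *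
      (finBasis Ω (Module.End Ω V)).repr B k *
      L (finBasis Ω (Module.End Ω V) j * finBasis Ω (Module.End Ω V) k) := by
  set b := finBasis Ω (Module.End Ω V)
  conv_lhs => rw [← b.sum_repr A, ← b.sum_repr B]
  rw [Finset.sum_mul, map_sum]
  refine Finset.sum_congr rfl fun j _ => ?_
  rw [Finset.mul_sum, map_sum]
  refine Finset.sum_congr rfl fun k _ => ?_
  rw [smul_mul_assoc, mul_smul_comm, map_smul, map_smul, smul_eq_mul, smul_eq_mul, mul_assoc]

lemma PE.mul {g h : Fam X → Module.End Ω V} (hg : PE g) (hh : PE h) :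
    PE (fun s => g s * h s) := fun L => by
  set b := finBasis Ω (Module.End Ω V) with hb
  have h1 : (fun s => L (g s * h s)) = ∑ j, ∑ k, (fun s => b.coord j (g s)) *
      (fun s => b.coord k (h s)) * fun _ => L (b j * b k) := by
    funext s
    rw [dual_mul, Finset.sum_apply]
    refine Finset.sum_congr rfl fun j _ => ?_
    rw [Finset.sum_apply]
    rfl
  rw [h1]
  exact sum_mem fun j _ => sum_mem fun k _ =>
    mul_mem (mul_mem (hg (b.coord j)) (hh (b.coord k))) (const_mem _)

lemma PE.pow {g : Fam X → Module.End Ω V} (hg : PE g) (n : ℕ) : PE (fun s => g s ^ n) := by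
  induction n with
  | zero =>
    have h1 : (fun s => g s ^ 0) = fun _ : Fam X => (1 : Module.End Ω V) := by
      funext s; exact pow_zero _
    rw [h1]
    exact PE_const 1
  | succ n ih =>
    have h1 : (fun s => g s ^ (n + 1)) = fun s => g s ^ n * g s := by
      funext s; exact pow_succ _ _
    rw [h1]
    exact ih.mul hg

lemma PE.det {g : Fam X → Module.End Ω V} (hg : PE g) :
    (fun s => LinearMap.det (g s)) ∈ polyFun X := by
  classical
  set b := finBasis Ω V with hb
  have he : ∀ j k, (fun s => LinearMap.toMatrix b b (g s) j k) ∈ polyFun X := fun j k =>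
    hg ((Matrix.entryLinearMap Ω Ω j k) ∘ₗ (LinearMap.toMatrix b b).toLinearMap)
  have h1 : (fun s => LinearMap.det (g s)) = ∑ σ : Equiv.Perm (Fin (finrank Ω V)),
      (Equiv.Perm.sign σ : ℤ) • ∏ j, fun s => LinearMap.toMatrix b b (g s) (σ j) j := by
    funext s
    rw [← LinearMap.det_toMatrix b, Matrix.det_apply, Finset.sum_apply]
    refine Finset.sum_congr rfl fun σ _ => ?_
    rw [Pi.smul_apply, Finset.prod_apply]
    rfl
  rw [h1]
  exact sum_mem fun σ _ => zsmul_mem (prod_mem fun j _ => he _ _) _

end ops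

/-- The multiplier of the form, as a polynomial function. -/
lemma exists_mult : ∃ m ∈ polyFun X, ∀ F : X.Auto, m (fam F) = F.μ := by
  have hpos : 0 < finrank Ω (X.H 2) := lt_of_lt_of_le (by norm_num) X.dim3
  obtain ⟨x, hx⟩ := (Module.finrank_pos_iff_exists_ne_zero (R := Ω) (M := X.H 2)).1 hpos
  have hex : ∃ y, X.q x y ≠ 0 := by
    by_contra hcon
    push Not at hcon
    exact hx (X.nondeg.1 x fun y => hcon y)
  obtain ⟨y, hy⟩ := hex
  set b := finBasis Ω (X.H 2) with hb
  set m : Fam X → Ω := fun s => (X.q x y)⁻¹ * X.q (s 2 x) (s 2 y) with hm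
  refine ⟨m, ?_, fun F => ?_⟩
  · have hc : ∀ (z : X.H 2) (j), (fun s : Fam X => b.coord j (s 2 z)) ∈ polyFun X := fun z j =>
      PE_coord 2 ((b.coord j) ∘ₗ (LinearMap.applyₗ z : Module.End Ω (X.H 2) →ₗ[Ω] X.H 2))
    have h1 : m = (fun _ => (X.q x y)⁻¹) * ∑ j, ∑ k, (fun s : Fam X => b.coord j (s 2 x)) *
        (fun s : Fam X => b.coord k (s 2 y)) * fun _ => X.q (b j) (b k) := by
      funext s
      rw [Pi.mul_apply, Finset.sum_apply]
      change (X.q x y)⁻¹ * X.q (s 2 x) (s 2 y) = _
      congr 1
      have h2 : ∀ u w, X.q u w = ∑ j, ∑ k, b.repr u j * b.repr w k * X.q (b j) (b k) := by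
        intro u w
        conv_lhs => rw [← b.sum_repr u, ← b.sum_repr w]
        rw [map_sum X.q, LinearMap.sum_apply]
        refine Finset.sum_congr rfl fun j _ => ?_
        rw [map_sum]
        refine Finset.sum_congr rfl fun k _ => ?_
        rw [map_smul, map_smul, LinearMap.smul_apply, smul_eq_mul, smul_eq_mul]
        ring
      rw [h2]
      refine Finset.sum_congr rfl fun j _ => ?_
      rw [Finset.sum_apply]
      rfl
    rw [h1]
    exact mul_mem (const_mem _) (sum_mem fun j _ => sum_mem fun k _ =>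
      mul_mem (mul_mem (hc x j) (hc y k)) (const_mem _))
  · have h1 : X.q (F.φ 2 x) (F.φ 2 y) = F.μ * X.q x y := F.similar x y
    change (X.q x y)⁻¹ * X.q (F.φ 2 x) (F.φ 2 y) = F.μ
    rw [h1, mul_comm F.μ, inv_mul_cancel_left₀ hy]

/-- A polynomial map which vanishes on `S` vanishes on the Zariski closure of `S`. -/
lemma PE.closure {V : Type} [AddCommGroup V] [Module Ω V] {g : Fam X → Module.End Ω V} (hg : PE g)
    {S : Set (Fam X)} (h : ∀ s ∈ S, g s = 0) {t : Fam X} (ht : t ∈ zariskiClosure X S) :
    g t = 0 := by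
  refine (Module.forall_dual_apply_eq_zero_iff Ω _).1 fun L => ?_
  exact ht _ (hg L) fun s hs => by
    change L (g s) = 0
    rw [h s hs, map_zero]

/-- Polynomial functions are continuous on a continuous family. -/
lemma cont_poly [TopologicalSpace Ω] [IsTopologicalRing Ω] {G : Type} [TopologicalSpace G]
    {a : G → Fam X} (ha : ∀ i, Cts fun σ => a σ i) {f : Fam X → Ω} (hf : f ∈ polyFun X) :
    Continuous fun σ => f (a σ) := by
  induction hf using Algebra.adjoin_induction with
  | mem f hf =>
    obtain ⟨i, L, rfl⟩ := hf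
    exact ha i L
  | algebraMap r => exact continuous_const
  | add f g _ _ hf hg => exact hf.add hg
  | mul f g _ _ hf hg => exact hf.mul hg

end

end Pool.Agent.U434.PA
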