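import Pool.Agent.N184.HK.W7
import Pool.Agent.U434.PA.Zar

/-!
# The good points

Adapted from the files `W3`, `W5` of the library `N184.HK` (places of good reduction of a
hyperkähler variety over a number field) to families over a scheme `S`.
-/

set_option autoImplicit false

namespace Pool.Agent.U434.PA

open Module Module.End Polynomial
open Pool.Agent.N184.HK Pool.Agent.Y143
open scoped Classical

section good

variable {Ω : Type} [Field Ω] [CharZero Ω] [IsAlgClosed Ω] [TopologicalSpace Ω] (X : HKFamily Ω)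
  {v : X.P} {σ : X.G} (hσ : σ ∈ X.Frob v) (j : QQ →+* Ω)

include hσ in
lemma roots_frob {i : ℕ} (hi : i ≤ X.d) : (en ((X.F σ).φ i)).charpoly.roots =
    ((X.poly v i).map (Int.castRingHom QQ)).roots.map j := by
  have h := X.frobPoly v σ hσ i hi
  rw [h, roots_int j]

include hσ in
lemma U_frob {C : Type} [Field C] (ι : QQ →+* C) (val : AddValuation C (WithTop ℚ)) {i : ℕ}
    (hi : i ≤ X.d) : ∀ e ∈ (en ((X.F σ).φ i)).charpoly.roots, (WI j ι val).U e := by
  intro e he
  have h0 := root_ne he
  rw [roots_frob X hσ j hi] at he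
  obtain ⟨y, -, rfl⟩ := Multiset.mem_map.1 he
  exact ⟨y, fun h => h0 (by rw [h, map_zero]), rfl⟩

include hσ in
lemma map_w (ι : QQ →+* (X.crys v).C) {i : ℕ} (hi : i ≤ X.d) :
    (en ((X.F σ).φ i)).charpoly.roots.map (WI j ι (X.crys v).val).w =
      (en ((X.crys v).F.φ i)).charpoly.roots.map (X.crys v).W.w := by
  have h := X.crysPoly v i hi
  rw [CrysPlace.cp] at h
  rw [roots_frob X hσ j hi, h, roots_int ι, Multiset.map_map, Multiset.map_map]
  refine Multiset.map_congr rfl fun y _ => ?_
  rw [Function.comp_apply, Function.comp_apply, WI_w]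
  rfl

include hσ in
lemma good_nil (ι : QQ →+* (X.crys v).C) {i : ℕ} (hi : i ≤ X.d) :
    IsNilpotent ((X.F σ).T (WI j ι (X.crys v).val) i (i / 2)) := by
  have hmom : ∀ i ≤ X.d, ∀ κ : ℚ, mom (X.F σ) (WI j ι (X.crys v).val) i κ =
      mom (X.crys v).F (X.crys v).W i κ := by
    intro i hi κ
    have h1 : ∀ {K' : Type} [Field K'] (m : Multiset K') (w : K' → ℚ),
        (m.map (fun e => (w e - κ) * (w e - κ))).sum =
        ((m.map w).map (fun x => (x - κ) * (x - κ))).sum := by
      intro K' _ m w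
      rw [Multiset.map_map]
      rfl
    rw [mom, mom, h1 _ (WI j ι (X.crys v).val).w, h1 _ (X.crys v).W.w,
      map_w X hσ j ι hi]
  have hμ : (WI j ι (X.crys v).val).w (X.F σ).μ / 2 =
      (X.crys v).W.w (X.crys v).F.μ / 2 := by
    have h1 := mean_two (F := X.F σ) (W := WI j ι (X.crys v).val)
      (U_frob X hσ j ι (X.crys v).val X.two_le)
    have h2 := mean_two (F := (X.crys v).F) (W := (X.crys v).W)
      ((X.crys v).root_U 2)
    have h3 := map_w X hσ j ι X.two_le
    have h4 : Multiset.card (en ((X.F σ).φ 2)).charpoly.roots =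
        Multiset.card (en ((X.crys v).F.φ 2)).charpoly.roots := by
      have := congrArg Multiset.card h3
      rwa [Multiset.card_map, Multiset.card_map] at this
    have h5 : (Multiset.card (en ((X.F σ).φ 2)).charpoly.roots : ℚ) ≠ 0 := by
      have h6 := X.H.dim3
      rw [← LinearMap.charpoly_natDegree (en ((X.F σ).φ 2)),
        (IsAlgClosed.splits _).natDegree_eq_card_roots] at h6
      have : 0 < Multiset.card (en ((X.F σ).φ 2)).charpoly.roots := by omega
      exact_mod_cast this.ne'
    have h7 := congrArg Multiset.sum h3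
    rw [h1, h2, ← h4] at h7
    exact mul_right_cancel₀ h5 h7
  have h1 := (total_mom (F := X.F σ) (W := WI j ι (X.crys v).val) X.two_le
    (fun i hi => U_frob X hσ j ι (X.crys v).val hi) (fun i => (i : ℚ) / 2)).1 (by
      rw [hμ, hmom 2 X.two_le, Finset.sum_congr rfl fun i hi =>
        hmom i (Nat.lt_succ_iff.1 (Finset.mem_range.1 hi)) ((i : ℚ) / 2)]
      exact (total_mom (F := (X.crys v).F) (W := (X.crys v).W) X.two_le
        (fun i _ => (X.crys v).root_U i)
        (fun i => (i : ℚ) / 2)).2 fun i hi => (X.crys v).nil hi)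
  exact h1 i hi

include hσ in
/-- The eigenvalues of a good Frobenius on the commutant are roots of unity of bounded order. -/
lemma good_eig {i : ℕ} (hi : i ≤ X.d) {a : Module.End Ω (X.H.H i)} (ha : a ∈ cen X.H i)
    (ha0 : a ≠ 0) {t : Ω} (hat : a ∈ (adE ((X.F σ).φ i)).maxGenEigenspace t) :
    t ^ (2 * (finrank Ω (X.H.H i)) ^ 2).factorial = 1 := by
  obtain ⟨j⟩ : Nonempty (QQ →+* Ω) := ⟨(IsAlgClosed.lift : QQ →ₐ[ℚ] Ω).toRingHom⟩
  -- eigenvalues `e` and `t e`
  have hex : ∃ e, ∃ x ∈ (en ((X.F σ).φ i)).maxGenEigenspace e, a x ≠ 0 := by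
    by_contra hcon
    push Not at hcon
    exact ha0 (ext_gen (en ((X.F σ).φ i)) fun e x hx => by
      rw [hcon e x hx, LinearMap.zero_apply])
  obtain ⟨e, x, hx, hax⟩ := hex
  have h1 := conj_gen hat hx
  have hx0 : x ≠ 0 := fun h => hax (by rw [h, map_zero])
  have he : e ∈ (en ((X.F σ).φ i)).charpoly.roots := ne_bot_iff.1 fun h => hx0 (by
    rw [h, Submodule.mem_bot] at hx; exact hx)
  have hte : t * e ∈ (en ((X.F σ).φ i)).charpoly.roots := ne_bot_iff.1 fun h => hax (by
    rw [h, Submodule.mem_bot] at h1; exact h1)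
  have he0 := root_ne he
  rw [roots_frob X hσ j hi] at he hte
  obtain ⟨y, hy, hye⟩ := Multiset.mem_map.1 he
  obtain ⟨y', hy', hye'⟩ := Multiset.mem_map.1 hte
  have hy0 : y ≠ 0 := fun h => he0 (by rw [← hye, h, map_zero])
  have hjt : j (y' / y) = t := by
    rw [map_div₀, hye, hye', mul_div_assoc, div_self he0, mul_one]
  have hp0 : (X.norm v : QQ) ≠ 0 := by exact_mod_cast (X.prime v).ne_zero
  have hrec := t_rec QQ (X.norm v) i (X.prime v).pos (X.poly v i) (X.weilPoly v i hi).1
    (X.weilPoly v i hi).2 y hy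
  have hprod : (({y', (X.norm v : QQ) ^ i / y} : Multiset QQ).prod) /
      (X.norm v : QQ) ^ i = y' / y := by
    rw [Multiset.insert_eq_cons, Multiset.prod_cons, Multiset.prod_singleton]
    field_simp
  have hT := fun ι => good_nil X hσ j ι hi
  have hval : ∀ ι : QQ →+* (X.crys v).C, 0 ≤ (X.crys v).val (ι (y' / y)) := by
    intro ι
    set W := WI j ι (X.crys v).val with hW
    have h3 := T_ad (W := W) (U_frob X hσ j ι _ X.two_le) (U_frob X hσ j ι _ hi)
      ((i : ℚ) / 2) ha hat
    have h4 := ad_nil (hT ι) ha0 h3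
    have h5 : W.w t = 0 := by
      have : ((W.w t : ℚ) : Ω) = 0 := h4
      exact_mod_cast this
    rw [← hjt, hW, WI_w] at h5
    by_cases h0 : ι (y' / y) = 0
    · rw [h0, AddValuation.map_zero]
      exact le_top
    · rw [← val_untop _ h0, h5]
      exact le_rfl
  have harith := t_arith QQ (X.crys v).C (X.norm v) (X.prime v)
    (X.crys v).val (by rw [(X.crys v).norm]; exact zero_lt_one) i (X.poly v i)
    (X.weilPoly v i hi).1 (X.weilPoly v i hi).2 {y', (X.norm v : QQ) ^ i / y}
    (by
      intro z hz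
      rw [Multiset.insert_eq_cons, Multiset.mem_cons, Multiset.mem_singleton] at hz
      rcases hz with rfl | rfl
      · exact hy'
      · exact hrec) i (by simp [mul_comm]) (by rw [hprod]; exact hval)
  rw [hprod] at harith
  have hdeg : (X.poly v i).natDegree = finrank Ω (X.H.H i) := by
    have h6 := LinearMap.charpoly_natDegree (en ((X.F σ).φ i))
    have h7 := X.frobPoly v σ hσ i hi
    rw [h7, natDegree_map_eq_of_injective (RingHom.injective_int _)] at h6
    exact h6
  have hcard : Multiset.card ({y', (X.norm v : QQ) ^ i / y} : Multiset QQ) = 2 := by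
    rw [Multiset.insert_eq_cons, Multiset.card_cons, Multiset.card_singleton]
  rw [hdeg, hcard] at harith
  rw [← hjt, ← map_pow, harith, map_one]

end good

section

variable {Ω : Type} [Field Ω] [CharZero Ω] [IsAlgClosed Ω] [TopologicalSpace Ω] (X : HKFamily Ω)

/-- The exponent of the roots of unity for the determinants. -/
noncomputable def expo2 (X : HKFamily Ω) (i n : ℕ) : ℕ :=
  (2 * (finrank Ω (X.H.H i)) ^ (n + n)).factorial

lemma expo2_pos (i n : ℕ) : 0 < expo2 X i n := Nat.factorial_pos _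

/-- Determinants of good Frobenius elements on the images of the idempotents in the commutant. -/
lemma good_det {v : X.P} {σ : X.G} (hσ : σ ∈ X.Frob v) {i : ℕ} (hi : i ≤ X.d)
    {z : Module.End Ω (X.H.H i)} (hz : z ∈ cen X.H i) (hzz : z * z = z)
    (hzφ : Commute (en ((X.F σ).φ i)) z) {n : ℕ} (hn : LinearMap.trace Ω _ z = n) :
    LinearMap.det (en ((X.F σ).φ i) * z + (1 - z)) ^ (4 * expo2 X i n) =
      (X.F σ).μ ^ (i * n * expo2 X i n) := by
  obtain ⟨j⟩ : Nonempty (QQ →+* Ω) := ⟨(IsAlgClosed.lift : QQ →ₐ[ℚ] Ω).toRingHom⟩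
  obtain ⟨s, hs, hcard, hdet, htr⟩ := t_detp Ω _ _ z hzφ hzz
  have hcn : Multiset.card s = n := by
    rw [hn] at hcard
    exact_mod_cast hcard.symm
  -- `s` comes from algebraic numbers
  have hs' : ∃ s' : Multiset QQ, s = s'.map j ∧
      ∀ y ∈ s', y ∈ ((X.poly v i).map (Int.castRingHom QQ)).roots := by
    rw [roots_frob X hσ j hi] at hs
    clear hcard hdet htr hcn
    induction s using Multiset.induction_on with
    | empty => exact ⟨0, rfl, by simp⟩
    | cons a s ih =>
      obtain ⟨s', h1, h2⟩ := ih fun e he => hs e (Multiset.mem_cons_of_mem he)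
      obtain ⟨y, hy, hya⟩ := Multiset.mem_map.1 (hs a (Multiset.mem_cons_self a s))
      refine ⟨y ::ₘ s', by rw [Multiset.map_cons, hya, h1], fun x hx => ?_⟩
      rcases Multiset.mem_cons.1 hx with rfl | hx
      · exact hy
      · exact h2 x hx
  obtain ⟨s', hss', hs'⟩ := hs'
  have hcn' : Multiset.card s' = n := by
    rw [hss', Multiset.card_map] at hcn
    exact hcn
  have hjprod : j s'.prod = s.prod := by rw [hss', map_multiset_prod]
  have hp0 : (X.norm v : QQ) ≠ 0 := by exact_mod_cast (X.prime v).ne_zero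
  have hprod : (s' + s').prod = s'.prod * s'.prod := Multiset.prod_add _ _
  -- valuations
  have hval : ∀ ι : QQ →+* (X.crys v).C, 0 ≤ (X.crys v).val
      (ι ((s' + s').prod / (X.norm v : QQ) ^ (i * n))) := by
    intro ι
    set W := WI j ι (X.crys v).val with hW
    have hU1 : W.U 1 := ⟨1, one_ne_zero, map_one j⟩
    have hUs : ∀ e ∈ s, W.U e := fun e he => U_frob X hσ j ι _ hi e (hs e he)
    have h1 := htr W.k
    have hT := good_nil X hσ j ι hi
    have h2 : Commute ((X.F σ).T W i (i / 2)) z := by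
      rw [T_eq]
      refine Commute.sub_left (Commute.sub_left (fop_comm hzφ.symm _).symm ?_) ?_
      · exact (Commute.one_left z).smul_left _
      · exact hz _ (skew_S2 (U_frob X hσ j ι _ X.two_le))
    rw [fop_split (X.F σ) W i ((i : ℚ) / 2), add_mul, add_mul, map_add, map_add,
      tr_nil (Commute.isNilpotent_mul_right h2 hT),
      tr_rho_mul (skew_S2 (U_frob X hσ j ι _ X.two_le)) (fun B hB => hz B hB),
      smul_mul_assoc, one_mul, map_smul, hn, smul_eq_mul, add_zero, add_zero] at h1
    have h3 : (s.map W.k).sum = (((s.map W.w).sum : ℚ) : Ω) := cast_sum_map _ _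
    rw [h3] at h1
    have h4 : (i : ℚ) / 2 * n = (s.map W.w).sum := by
      have : (((i : ℚ) / 2 * n : ℚ) : Ω) = (((s.map W.w).sum : ℚ) : Ω) := by
        rw [← h1, Rat.cast_mul, Rat.cast_natCast]
      exact Rat.cast_injective this
    have h5 := W.w_prod hU1 hUs
    have hUp : W.U (X.norm v : Ω) :=
      ⟨(X.norm v : QQ), hp0, map_natCast j _⟩
    have h6 := W.w_pow hU1 hUp (i * n)
    have h7 : W.U (s.prod * s.prod) ∧ W.w (s.prod * s.prod) = W.w s.prod + W.w s.prod :=
      ⟨W.mul _ _ h5.1 h5.1, W.w_mul _ _ h5.1 h5.1⟩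
    have h8 := W.w_div hU1 h7.1 h6.1
    have h9 : W.w (X.norm v : Ω) = 1 := by
      have h10 := WI_w j ι (X.crys v).val (X.norm v : QQ)
      rw [map_natCast, map_natCast, (X.crys v).norm] at h10
      exact h10
    have h10 : W.w (s.prod * s.prod / (X.norm v : Ω) ^ (i * n)) = 0 := by
      rw [h8.2, h7.2, h6.2, h9, h5.2, ← h4]
      push_cast
      ring
    have h11 : j ((s' + s').prod / (X.norm v : QQ) ^ (i * n)) =
        s.prod * s.prod / (X.norm v : Ω) ^ (i * n) := by
      rw [map_div₀, hprod, map_mul, hjprod, map_pow, map_natCast]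
    rw [← h11, hW, WI_w] at h10
    by_cases h0 : ι ((s' + s').prod / (X.norm v : QQ) ^ (i * n)) = 0
    · rw [h0, AddValuation.map_zero]
      exact le_top
    · rw [← val_untop _ h0, h10]
      exact le_rfl
  have harith := t_arith QQ (X.crys v).C (X.norm v) (X.prime v)
    (X.crys v).val (by rw [(X.crys v).norm]; exact zero_lt_one) i (X.poly v i)
    (X.weilPoly v i hi).1 (X.weilPoly v i hi).2 (s' + s')
    (fun y hy => by
      rcases Multiset.mem_add.1 hy with h | h
      · exact hs' y h
      · exact hs' y h) (i * n)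
    (by rw [Multiset.card_add, hcn']; ring) hval
  have hdeg : (X.poly v i).natDegree = finrank Ω (X.H.H i) := by
    have h6 := LinearMap.charpoly_natDegree (en ((X.F σ).φ i))
    have h7 := X.frobPoly v σ hσ i hi
    rw [h7, natDegree_map_eq_of_injective (RingHom.injective_int _)] at h6
    exact h6
  rw [hdeg, Multiset.card_add, hcn'] at harith
  have h1 : (s.prod * s.prod / (X.norm v : Ω) ^ (i * n)) ^ (expo2 X i n) = 1 := by
    have h11 : j ((s' + s').prod / (X.norm v : QQ) ^ (i * n)) =
        s.prod * s.prod / (X.norm v : Ω) ^ (i * n) := by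
      rw [map_div₀, hprod, map_mul, hjprod, map_pow, map_natCast]
    rw [← h11, ← map_pow]
    exact (congrArg j harith).trans (map_one j)
  have hpΩ : ((X.norm v : Ω) ^ (i * n)) ^ (expo2 X i n) ≠ 0 := by
    refine pow_ne_zero _ (pow_ne_zero _ ?_)
    exact_mod_cast (X.prime v).ne_zero
  rw [div_pow, div_eq_one_iff_eq hpΩ] at h1
  have hmu := X.mult v σ hσ
  rw [hdet, hmu]
  have h2 : s.prod ^ (4 * expo2 X i n) = ((s.prod * s.prod) ^ expo2 X i n) ^ 2 := by ring
  rw [h2, h1]
  ring

end

end Pool.Agent.U434.PA
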