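import Pool.Agent.U434.PA.Pure
import Pool.Agent.Y143.Mon

/-!
# The action of the Weil group
-/

set_option autoImplicit false

namespace Pool.Agent.U434.PA

open Module Module.End Polynomial
open Pool.Agent.N184.HK Pool.Agent.Y143

section abs

variable {Ω : Type} [Field Ω] [CharZero Ω]

lemma rpow_aux (p n : ℕ) (w : ℝ) :
    (((p ^ n : ℕ) : ℝ)) ^ (w / 2) = (p : ℝ) ^ (w * (n : ℤ) / 2) := by
  rw [Nat.cast_pow, ← Real.rpow_natCast, ← Real.rpow_mul (Nat.cast_nonneg p)]
  congr 1
  push_cast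
  ring

lemma weil_iff (p n : ℕ) (w : ℤ) (α : Ω) :
    IsWeilNumber (p ^ n) w α ↔ HasAbs p ((w : ℝ) * ((n : ℤ) : ℝ) / 2) α := by
  rw [IsWeilNumber, HasAbs, rpow_aux]

lemma HasAbs.inv {p : ℕ} {r : ℝ} {α : Ω} (h : HasAbs p r α) : HasAbs p (-r) α⁻¹ := by
  refine ⟨h.1.inv, fun z hz => ?_⟩
  have h2 := h.2 _ (aeval_minpoly_inv h.1 hz)
  rw [norm_inv] at h2
  rw [Real.rpow_neg (Nat.cast_nonneg p), ← h2, inv_inv]

end abs

section filt

variable {Ω V : Type} [Field Ω] [AddCommGroup V] [Module Ω V]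

lemma filt_le {N : Module.End Ω V} {M M' : ℤ → Submodule Ω V} (h : IsMonodromyFiltration N M)
    (h' : IsMonodromyFiltration N M') (s : ℤ) : M s ≤ M' s := fun x hx =>
  h.on.functorial h'.on LinearMap.id (fun _ _ => trivial) one_ne_zero
    (fun x _ => by simp) s hx

lemma filt_eq {N : Module.End Ω V} {M M' : ℤ → Submodule Ω V} (h : IsMonodromyFiltration N M)
    (h' : IsMonodromyFiltration N M') (s : ℤ) : M s = M' s :=
  le_antisymm (filt_le h h' s) (filt_le h' h s)

lemma filt_stable {N : Module.End Ω V} {M : ℤ → Submodule Ω V} (h : IsMonodromyFiltration N M)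
    {A : Module.End Ω V} {c : Ω} (hc : c ≠ 0) (hN : ∀ x, N (A x) = c • A (N x)) (s : ℤ) {x : V}
    (hx : x ∈ M s) : A x ∈ M s :=
  h.on.functorial h.on A (fun _ _ => trivial) hc (fun x _ => hN x) s hx

lemma eigen_gr [FiniteDimensional Ω V] {f : Module.End Ω V} {B : Submodule Ω V}
    (hB : ∀ x ∈ B, f x ∈ B) {x : V} (hxB : x ∉ B) {α : Ω} (h : f x - α • x ∈ B) :
    f.HasEigenvalue α := by
  have hpow : ∀ k : ℕ, (f ^ k) x - α ^ k • x ∈ B := by
    intro k
    induction k with
    | zero => simp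
    | succ k ih =>
      have h1 := B.add_mem (hB _ ih) (B.smul_mem (α ^ k) h)
      have h2 : f ((f ^ k) x - α ^ k • x) + α ^ k • (f x - α • x) =
          (f ^ (k + 1)) x - α ^ (k + 1) • x := by
        have h3 : (f ^ (k + 1)) x = f ((f ^ k) x) := by
          rw [_root_.pow_succ', Module.End.mul_apply]
        rw [map_sub, map_smul, smul_sub, smul_smul, h3, _root_.pow_succ α]
        abel
      rwa [h2] at h1
  have hpoly : ∀ P : Polynomial Ω, (aeval f P) x - P.eval α • x ∈ B := by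
    intro P
    induction P using Polynomial.induction_on' with
    | add P Q hP hQ =>
      have h1 := B.add_mem hP hQ
      have h2 : (aeval f P) x - P.eval α • x + ((aeval f Q) x - Q.eval α • x) =
          (aeval f (P + Q)) x - (P + Q).eval α • x := by
        rw [map_add, eval_add, add_smul, LinearMap.add_apply]
        abel
      rwa [h2] at h1
    | monomial n a =>
      have h1 := B.smul_mem a (hpow n)
      have h2 : a • ((f ^ n) x - α ^ n • x) =
          (aeval f (monomial n a)) x - (monomial n a).eval α • x := by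
        rw [aeval_monomial, eval_monomial, smul_sub, smul_smul]
        rfl
      rwa [h2] at h1
  refine Module.End.hasEigenvalue_of_isRoot ?_
  have h1 := hpoly (minpoly Ω f)
  rw [minpoly.aeval, LinearMap.zero_apply, zero_sub] at h1
  by_contra hne
  have h2 : (minpoly Ω f).eval α ≠ 0 := hne
  exact hxB ((Submodule.smul_mem_iff _ h2).1 ((Submodule.neg_mem_iff _).1 h1))

end filt

section

variable {Ω : Type} [Field Ω] [TopologicalSpace Ω] {X : HKFamily Ω} {p : ℕ} (A : WeilAction X p)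

lemma WeilAction.v_one : A.v 1 = 0 := by
  have h := A.v_mul 1 1
  rw [mul_one] at h
  omega

lemma WeilAction.v_inv (g : A.W) : A.v g⁻¹ = -A.v g := by
  have h := A.v_mul g g⁻¹
  rw [mul_inv_cancel, A.v_one] at h
  omega

lemma WeilAction.r_one (i : ℕ) (x : X.H.H i) : (A.r 1).φ i x = x := by
  have h := A.r_mul 1 1 i
  rw [one_mul] at h
  have h2 := congrArg (fun f => f x) h
  exact ((A.r 1).φ i).injective h2.symm

lemma WeilAction.r_inv (g : A.W) (i : ℕ) (x : X.H.H i) :
    (A.r g⁻¹).φ i ((A.r g).φ i x) = x := by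
  have h := A.r_mul g⁻¹ g i
  rw [inv_mul_cancel] at h
  have h2 : (A.r 1).φ i x = (A.r g⁻¹).φ i ((A.r g).φ i x) := congrArg (fun f => f x) h
  rw [← h2, A.r_one]

end

section

variable {Ω : Type} [Field Ω] [CharZero Ω] [TopologicalSpace Ω] {X : HKFamily Ω} {p : ℕ}
  (D : Pst X p)

/-- The data for an element `g` with `v(g) = n > 0`. -/
noncomputable def Pst.mono (g : D.A.W) (n : ℕ) (hn : D.A.v g = n) :
    Monodromy (D.A.r g) (p ^ n) where
  mult := by
    rw [D.A.mult, hn, Nat.cast_pow, mul_comm, zpow_mul]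
    norm_cast
  N := D.N
  skew := D.skew
  compat := D.compat
  twist := fun i hi x => by
    have h := D.rel g i hi x
    rw [hn, zpow_natCast] at h
    rw [Nat.cast_pow]
    exact h
  weights := fun i hi e he => by
    obtain ⟨w, hw⟩ := D.weights g i hi e he
    rw [hn] at hw
    exact ⟨w, (weil_iff p n w e).2 hw⟩
  mw_two := by
    obtain ⟨M, hM, hst, hp⟩ := D.pure_two
    refine ⟨M, hM, fun a x hx => hst g a x hx, fun a α x hx hx' h => ?_⟩
    have h1 := hp g a α x hx hx' h
    rw [hn] at h1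
    rw [weil_iff]
    convert h1 using 2
    push_cast
    ring

end

section

variable {Ω : Type} [Field Ω] [CharZero Ω] [IsAlgClosed Ω] [TopologicalSpace Ω]
  [IsTopologicalRing Ω] [T2Space Ω] {X : HKFamily Ω} {p : ℕ} (D : Pst X p)

/-- **The `p`-adic weight-monodromy conjecture for projective hyperkähler varieties.** -/
theorem pst_pure (hp : 1 < p) {i : ℕ} (hi : i ≤ X.d) : D.IsPure i := by
  -- purity for the elements with `v(g) > 0`
  have key : ∀ (g : D.A.W) (n : ℕ), D.A.v g = n → 0 < n →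
      IsMWPure (p ^ n) i (en ((D.A.r g).φ i)) (D.N i) := fun g n hn h0 =>
    pure_one (D.A.closure g) (Nat.one_lt_pow h0.ne' hp) (D.mono g n hn) hi
  have hp0 : (p : Ω) ≠ 0 := by exact_mod_cast (by omega : p ≠ 0)
  obtain ⟨g₀, hg₀⟩ := D.A.v_pos
  obtain ⟨M, hM, -, -⟩ := key g₀ (D.A.v g₀).toNat (by omega) (by omega)
  have hst : ∀ (g : D.A.W) (s : ℤ) (x : X.H.H i), x ∈ M s → en ((D.A.r g).φ i) x ∈ M s :=
    fun g s x hx => filt_stable hM (zpow_ne_zero (D.A.v g) hp0) (fun x => D.rel g i hi x) s hx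
  have hpos : ∀ (g : D.A.W), 0 < D.A.v g → ∀ (s : ℤ) (α : Ω) (x : X.H.H i), x ∈ M s →
      x ∉ M (s - 1) → en ((D.A.r g).φ i) x - α • x ∈ M (s - 1) →
      HasAbs p (((i : ℝ) + s) * D.A.v g / 2) α := by
    intro g hg s α x hx hx' h
    obtain ⟨M', hM', -, hM2⟩ := key g (D.A.v g).toNat (by omega) (by omega)
    rw [filt_eq hM hM'] at hx hx' h
    have h1 := hM2 s α x hx hx' h
    rw [weil_iff] at h1
    convert h1 using 2
    rw [Int.toNat_of_nonneg hg.le]
    push_cast
    ring
  refine ⟨M, hM, hst, fun g s α x hx hx' h => ?_⟩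
  rcases lt_trichotomy 0 (D.A.v g) with hg | hg | hg
  · exact hpos g hg s α x hx hx' h
  · have h1 := eigen_gr (fun x hx => hst g (s - 1) x hx) hx' h
    obtain ⟨w, hw⟩ := D.weights g i hi α h1
    have hg' : D.A.v g = 0 := hg.symm
    rw [hg'] at hw
    change HasAbs p ((((i : ℤ) : ℝ) + s) * (D.A.v g : ℝ) / 2) α
    rw [hg']
    simpa using hw
  · have hv := D.A.v_inv g
    -- `g⁻¹ x - α⁻¹ x` is in `M (s - 1)`
    have h1 := hst g⁻¹ (s - 1) _ h
    have h2 : en ((D.A.r g⁻¹).φ i) (en ((D.A.r g).φ i) x - α • x) =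
        x - α • (D.A.r g⁻¹).φ i x := by
      rw [map_sub, map_smul]
      congr 1
      exact D.A.r_inv g i x
    rw [h2] at h1
    have hα : α ≠ 0 := fun h0 => hx' (by
      rw [h0, zero_smul, sub_zero] at h1
      exact h1)
    have h3 : en ((D.A.r g⁻¹).φ i) x - α⁻¹ • x ∈ M (s - 1) := by
      have h4 := (M (s - 1)).smul_mem (-α⁻¹) h1
      have h5 : -α⁻¹ • (x - α • (D.A.r g⁻¹).φ i x) = en ((D.A.r g⁻¹).φ i) x - α⁻¹ • x := by
        rw [smul_sub, smul_smul, neg_smul, neg_mul, inv_mul_cancel₀ hα, neg_smul, one_smul]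
        change _ = (D.A.r g⁻¹).φ i x - α⁻¹ • x
        abel
      rwa [h5] at h4
    have h6 := (hpos g⁻¹ (by omega) s α⁻¹ x hx hx' h3).inv
    rw [inv_inv, hv] at h6
    convert h6 using 2
    push_cast
    ring

end

end Pool.Agent.U434.PA
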